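import Pool.Agent.Y755.MK.Stm

/-!
# Job MK-CH (helper863): existence of the two-sided process
-/

set_option autoImplicit false

open MeasureTheory ProbabilityTheory Filter Topology
open scoped Classical ENNReal

namespace Pool.Agent.Y863.MK.CH

open Pool.Agent.Y755.MK

/-- cylinders -/
def Cl : List (Set S0) → Set (ℕ → S0)
  | [] => Set.univ
  | A :: l => {ω | ω 0 ∈ A ∧ (fun k => ω (k + 1)) ∈ Cl l}

/-- a state in front of a sequence -/
def cns (q : S0 × (ℕ → S0)) : ℕ → S0 := fun k => if k = 0 then q.1 else q.2 (k - 1)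

/-- the law of the chain: `n` steps backwards from a random state -/
noncomputable def lam : ℕ → Measure (ℕ → S0)
  | 0 => mS.map (fun x _ => x)
  | n + 1 => ((mS.prod (lam n)).withDensity (fun q => ENNReal.ofReal (ps q.1 (q.2 0)))).map cns

theorem meas_cns : Measurable cns := by
  rw [measurable_pi_iff]
  intro k
  unfold cns
  by_cases h : k = 0
  · simp only [h, if_true]
    exact measurable_fst
  · simp only [h, if_false]
    exact (measurable_pi_apply (k - 1)).comp measurable_snd

theorem meas_shift : Measurable (fun (ω : ℕ → S0) (k : ℕ) => ω (k + 1)) := by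
  rw [measurable_pi_iff]
  intro k
  exact measurable_pi_apply (k + 1)

theorem meas_Cl (l : List (Set S0)) (hl : ∀ C ∈ l, MeasurableSet C) : MeasurableSet (Cl l) := by
  induction l with
  | nil => exact MeasurableSet.univ
  | cons A l ih =>
    have h1 : MeasurableSet (Cl l) := ih fun C hC => hl C (List.mem_cons_of_mem _ hC)
    have h2 : MeasurableSet A := hl A List.mem_cons_self
    exact ((measurable_pi_apply 0) h2).inter (meas_shift h1)

theorem cns_zero (q : S0 × (ℕ → S0)) : cns q 0 = q.1 := rfl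

theorem cns_succ (q : S0 × (ℕ → S0)) : (fun k => cns q (k + 1)) = q.2 := by
  funext k
  show (if k + 1 = 0 then q.1 else q.2 (k + 1 - 1)) = q.2 k
  rw [if_neg (Nat.succ_ne_zero k), Nat.add_sub_cancel]

theorem pre_cns (A : Set S0) (l : List (Set S0)) : cns ⁻¹' (Cl (A :: l)) = A ×ˢ Cl l := by
  ext q
  show (cns q 0 ∈ A ∧ (fun k => cns q (k + 1)) ∈ Cl l) ↔ _
  rw [cns_zero, cns_succ]
  rfl

theorem Cl_univ : Cl [Set.univ] = Set.univ := by
  ext ω
  show (ω 0 ∈ Set.univ ∧ _ ∈ Set.univ) ↔ _
  simp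

theorem Gl_nil (x : S0) : Gl [] x = 1 := rfl

theorem Gl_cons (A : Set S0) (l : List (Set S0)) (x : S0) :
    Gl (A :: l) x = ∫ x' in A, ps x x' * Gl l x' ∂mS := rfl

theorem mem_Cl (l : List (Set S0)) (ω : ℕ → S0) :
    ω ∈ Cl l ↔ ∀ i : Fin l.length, ω i ∈ l.get i := by
  induction l generalizing ω with
  | nil =>
    constructor
    · intro _ i
      exact absurd i.2 (by simp)
    · intro _
      exact Set.mem_univ _
  | cons A l ih =>
    show (ω 0 ∈ A ∧ (fun k => ω (k + 1)) ∈ Cl l) ↔ _
    rw [ih]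
    constructor
    · rintro ⟨h0, h1⟩ ⟨i, hi⟩
      cases i with
      | zero => exact h0
      | succ i => exact h1 ⟨i, Nat.lt_of_succ_lt_succ hi⟩
    · intro h
      exact ⟨h ⟨0, Nat.succ_pos _⟩, fun i => h ⟨i.1 + 1, Nat.succ_lt_succ i.2⟩⟩

section

variable (h : S_PS)
include h

theorem meas_ps : Measurable fun q : S0 × S0 => ps q.1 q.2 := h.2.1

theorem int_ps (x : S0) : Integrable (fun x' => ps x x') mS := by
  haveI := h.1
  refine Integrable.of_bound (C := 3) ?_ ?_
  · exact ((meas_ps h).comp (measurable_const.prodMk measurable_id)).aestronglyMeasurable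
  · refine Eventually.of_forall fun x' => ?_
    rw [Real.norm_eq_abs, abs_of_nonneg (h.2.2.1 x x').1]
    exact (h.2.2.1 x x').2

theorem Gl_prop (l : List (Set S0)) (hl : ∀ C ∈ l, MeasurableSet C) :
    Measurable (Gl l) ∧ ∀ x, 0 ≤ Gl l x ∧ Gl l x ≤ 1 := by
  haveI := h.1
  induction l with
  | nil =>
    refine ⟨measurable_const, fun x => ?_⟩
    rw [Gl_nil]
    norm_num
  | cons A l ih =>
    obtain ⟨h1, h2⟩ := ih fun C hC => hl C (List.mem_cons_of_mem _ hC)
    have h3 : MeasurableSet A := hl A List.mem_cons_self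
    have hm2 : Measurable (fun q : S0 × S0 => ps q.1 q.2 * Gl l q.2) :=
      (meas_ps h).mul (h1.comp measurable_snd)
    refine ⟨?_, fun x => ⟨?_, ?_⟩⟩
    · have h4 : StronglyMeasurable (Function.uncurry fun x x' : S0 => ps x x' * Gl l x') :=
        hm2.stronglyMeasurable
      exact (h4.integral_prod_right (ν := mS.restrict A)).measurable
    · rw [Gl_cons]
      exact integral_nonneg fun x' => mul_nonneg (h.2.2.1 x x').1 (h2 x').1
    · rw [Gl_cons]
      calc ∫ x' in A, ps x x' * Gl l x' ∂mS ≤ ∫ x' in A, ps x x' ∂mS := by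
            apply integral_mono_of_nonneg
            · exact Eventually.of_forall fun x' => mul_nonneg (h.2.2.1 x x').1 (h2 x').1
            · exact (int_ps h x).integrableOn
            · exact Eventually.of_forall fun x' =>
                mul_le_of_le_one_right (h.2.2.1 x x').1 (h2 x').2
        _ ≤ ∫ x', ps x x' ∂mS :=
            setIntegral_le_integral (int_ps h x) (Eventually.of_forall fun x' => (h.2.2.1 x x').1)
        _ = 1 := h.2.2.2.1 x

theorem lint_ps (x : S0) : ∫⁻ x', ENNReal.ofReal (ps x x') ∂mS = 1 := by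
  rw [← ofReal_integral_eq_lintegral_ofReal (int_ps h x)
    (Eventually.of_forall fun x' => (h.2.2.1 x x').1), h.2.2.2.1 x, ENNReal.ofReal_one]

theorem lint_ps' (x' : S0) : ∫⁻ x, ENNReal.ofReal (ps x x') ∂mS = 1 := by
  haveI := h.1
  have h1 : Integrable (fun x => ps x x') mS := by
    refine Integrable.of_bound (C := 3) ?_ ?_
    · exact ((meas_ps h).comp (measurable_id.prodMk measurable_const)).aestronglyMeasurable
    · refine Eventually.of_forall fun x => ?_
      rw [Real.norm_eq_abs, abs_of_nonneg (h.2.2.1 x x').1]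
      exact (h.2.2.1 x x').2
  rw [← ofReal_integral_eq_lintegral_ofReal h1
    (Eventually.of_forall fun x => (h.2.2.1 x x').1), h.2.2.2.2.1 x', ENNReal.ofReal_one]

theorem lint_Gl (A : Set S0) (hA : MeasurableSet A) (l : List (Set S0))
    (hl : ∀ C ∈ l, MeasurableSet C) (x : S0) :
    ∫⁻ x' in A, ENNReal.ofReal (ps x x') * ENNReal.ofReal (Gl l x') ∂mS =
      ENNReal.ofReal (Gl (A :: l) x) := by
  haveI := h.1
  obtain ⟨h1, h2⟩ := Gl_prop h l hl
  have h3 : Integrable (fun x' => ps x x' * Gl l x') mS := by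
    refine Integrable.of_bound (C := 3) ?_ ?_
    · exact ((meas_ps h).comp (measurable_const.prodMk measurable_id)).mul h1
        |>.aestronglyMeasurable
    · refine Eventually.of_forall fun x' => ?_
      rw [Real.norm_eq_abs, abs_of_nonneg (mul_nonneg (h.2.2.1 x x').1 (h2 x').1)]
      exact (mul_le_of_le_one_right (h.2.2.1 x x').1 (h2 x').2).trans (h.2.2.1 x x').2
  rw [Gl_cons, ofReal_integral_eq_lintegral_ofReal h3.integrableOn
    (Eventually.of_forall fun x' => mul_nonneg (h.2.2.1 x x').1 (h2 x').1)]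
  refine lintegral_congr fun x' => ?_
  rw [ENNReal.ofReal_mul (h.2.2.1 x x').1]

theorem lam_int (n : ℕ) : IsProbabilityMeasure (lam n) ∧
    ∀ (B : Set S0) (l : List (Set S0)), MeasurableSet B → (∀ C ∈ l, MeasurableSet C) →
      l.length ≤ n → ∀ f : S0 → ℝ≥0∞, Measurable f →
      ∫⁻ ω in Cl (B :: l), f (ω 0) ∂(lam n) = ∫⁻ x in B, f x * ENNReal.ofReal (Gl l x) ∂mS := by
  haveI := h.1
  induction n with
  | zero =>
    have hc : Measurable (fun (x : S0) (_ : ℕ) => x) := by
      rw [measurable_pi_iff]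
      intro _
      exact measurable_id
    refine ⟨Measure.isProbabilityMeasure_map hc.aemeasurable, ?_⟩
    intro B l hB hl hlen f hf
    have e : l = [] := List.eq_nil_of_length_eq_zero (by omega)
    subst e
    show ∫⁻ ω in Cl [B], f (ω 0) ∂(mS.map (fun (x : S0) (_ : ℕ) => x)) = _
    have hf0 : Measurable (fun ω : ℕ → S0 => f (ω 0)) := hf.comp (measurable_pi_apply 0)
    rw [setLIntegral_map (meas_Cl [B] (by simpa using hB)) hf0 hc]
    have e2 : (fun (x : S0) (_ : ℕ) => x) ⁻¹' (Cl [B]) = B := by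
      ext x
      show (x ∈ B ∧ _ ∈ Set.univ) ↔ _
      simp
    rw [e2]
    refine lintegral_congr fun x => ?_
    rw [Gl_nil, ENNReal.ofReal_one, mul_one]
  | succ n ih =>
    obtain ⟨hP, ih⟩ := ih
    haveI := hP
    have hin : ∀ (l : List (Set S0)), (∀ C ∈ l, MeasurableSet C) → l.length ≤ n + 1 → ∀ x,
        ∫⁻ ω in Cl l, ENNReal.ofReal (ps x (ω 0)) ∂(lam n) = ENNReal.ofReal (Gl l x) := by
      intro l hl hlen x
      have hf : Measurable (fun x' => ENNReal.ofReal (ps x x')) :=
        ((meas_ps h).comp (measurable_const.prodMk measurable_id)).ennreal_ofReal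
      cases l with
      | nil =>
        have h1 := ih Set.univ [] MeasurableSet.univ (by simp) (by simp)
          (fun x' => ENNReal.ofReal (ps x x')) hf
        rw [Cl_univ] at h1
        show ∫⁻ ω in Set.univ, ENNReal.ofReal (ps x (ω 0)) ∂(lam n) = _
        rw [h1, Gl_nil, ENNReal.ofReal_one]
        simp only [Gl_nil, ENNReal.ofReal_one, mul_one, Measure.restrict_univ]
        exact lint_ps h x
      | cons C l =>
        have hC : MeasurableSet C := hl C List.mem_cons_self
        have hl' : ∀ D ∈ l, MeasurableSet D := fun D hD => hl D (List.mem_cons_of_mem _ hD)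
        rw [ih C l hC hl' (by simpa using hlen) (fun x' => ENNReal.ofReal (ps x x')) hf]
        exact lint_Gl h C hC l hl' x
    have hd : Measurable (fun q : S0 × (ℕ → S0) => ENNReal.ofReal (ps q.1 (q.2 0))) :=
      ((meas_ps h).comp (measurable_fst.prodMk
        ((measurable_pi_apply 0).comp measurable_snd))).ennreal_ofReal
    have hform : ∀ (B : Set S0) (l : List (Set S0)), MeasurableSet B →
        (∀ C ∈ l, MeasurableSet C) → l.length ≤ n + 1 → ∀ f : S0 → ℝ≥0∞, Measurable f →
        ∫⁻ ω in Cl (B :: l), f (ω 0) ∂(lam (n + 1)) =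
          ∫⁻ x in B, f x * ENNReal.ofReal (Gl l x) ∂mS := by
      intro B l hB hl hlen f hf
      have hBl : MeasurableSet (Cl (B :: l)) := meas_Cl _ (by
        intro C hC
        rcases List.mem_cons.1 hC with rfl | hC
        · exact hB
        · exact hl C hC)
      show ∫⁻ ω in Cl (B :: l), f (ω 0) ∂(((mS.prod (lam n)).withDensity
        (fun q => ENNReal.ofReal (ps q.1 (q.2 0)))).map cns) = _
      have hf0 : Measurable (fun ω : ℕ → S0 => f (ω 0)) := hf.comp (measurable_pi_apply 0)
      rw [setLIntegral_map hBl hf0 meas_cns, pre_cns,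
        setLIntegral_withDensity_eq_setLIntegral_mul _ hd
          (g := fun q : S0 × (ℕ → S0) => f (cns q 0)) (hf.comp measurable_fst)
          (hB.prod (meas_Cl l hl))]
      rw [← Measure.prod_restrict, lintegral_prod]
      · refine lintegral_congr fun x => ?_
        show ∫⁻ ω in Cl l, ENNReal.ofReal (ps x (ω 0)) * f x ∂(lam n) = _
        rw [lintegral_mul_const, hin l hl hlen x, mul_comm]
        exact hd.comp (measurable_const.prodMk measurable_id)
      · exact (hd.mul (hf.comp measurable_fst)).aemeasurable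
    refine ⟨⟨?_⟩, hform⟩
    have h1 := hform Set.univ [] MeasurableSet.univ (by simp) (by simp) (fun _ => 1)
      measurable_const
    rw [Cl_univ] at h1
    simp only [Gl_nil, ENNReal.ofReal_one, mul_one, Measure.restrict_univ, lintegral_const,
      one_mul, measure_univ] at h1
    exact h1

theorem lam_shift1 (n : ℕ) (D : Set (ℕ → S0)) (hD : MeasurableSet D) :
    lam (n + 1) {ω | (fun k => ω (k + 1)) ∈ D} = lam n D := by
  haveI := h.1
  haveI := (lam_int h n).1
  have hd : Measurable (fun q : S0 × (ℕ → S0) => ENNReal.ofReal (ps q.1 (q.2 0))) :=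
    ((meas_ps h).comp (measurable_fst.prodMk
      ((measurable_pi_apply 0).comp measurable_snd))).ennreal_ofReal
  have hS : MeasurableSet {ω : ℕ → S0 | (fun k => ω (k + 1)) ∈ D} := meas_shift hD
  show (((mS.prod (lam n)).withDensity
        (fun q => ENNReal.ofReal (ps q.1 (q.2 0)))).map cns) _ = _
  rw [Measure.map_apply meas_cns hS]
  have e : cns ⁻¹' {ω : ℕ → S0 | (fun k => ω (k + 1)) ∈ D} = Set.univ ×ˢ D := by
    ext q
    show (fun k => cns q (k + 1)) ∈ D ↔ _
    rw [cns_succ]
    simp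
  rw [e, withDensity_apply _ (MeasurableSet.univ.prod hD), ← Measure.prod_restrict,
    lintegral_prod_symm _ hd.aemeasurable]
  simp only [Measure.restrict_univ, lint_ps' h, lintegral_const, one_mul, MeasurableSet.univ,
    Measure.restrict_apply, Set.univ_inter]

theorem lam_shift (n s : ℕ) (D : Set (ℕ → S0)) (hD : MeasurableSet D) :
    lam (n + s) {ω | (fun k => ω (k + s)) ∈ D} = lam n D := by
  induction s with
  | zero => rfl
  | succ s ih =>
    have hs : Measurable (fun (ω : ℕ → S0) (k : ℕ) => ω (k + s)) := by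
      rw [measurable_pi_iff]
      intro k
      exact measurable_pi_apply (k + s)
    have h1 := lam_shift1 h (n + s) {ω | (fun k => ω (k + s)) ∈ D} (hs hD)
    rw [ih] at h1
    exact h1

end

/-- the sequence seen on `ℤ`, starting at `-M` -/
def EE (M : ℕ) (ω : ℕ → S0) : ℤ → S0 := fun i => ω (i + M).toNat

theorem meas_EE (M : ℕ) : Measurable (EE M) := by
  rw [measurable_pi_iff]
  intro k
  exact measurable_pi_apply _

theorem lam_win (h : S_PS) (s : ℤ) (A : Set S0) (l : List (Set S0)) (hA : MeasurableSet A)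
    (hl : ∀ C ∈ l, MeasurableSet C) (M : ℕ) (hM : -(M : ℤ) ≤ s)
    (hM' : s + l.length ≤ M) :
    (lam (2 * M)).map (EE M)
      {ω | ω s ∈ A ∧ ∀ i : Fin l.length, ω (s + 1 + (i : ℕ)) ∈ l.get i} =
      ENNReal.ofReal (∫ x in A, Gl l x ∂mS) := by
  haveI := h.1
  have hAl : ∀ C ∈ A :: l, MeasurableSet C := by
    intro C hC
    rcases List.mem_cons.1 hC with rfl | hC
    · exact hA
    · exact hl C hC
  have hD : MeasurableSet {ω : ℤ → S0 | ω s ∈ A ∧ ∀ i : Fin l.length,
      ω (s + 1 + (i : ℕ)) ∈ l.get i} := by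
    have e : {ω : ℤ → S0 | ω s ∈ A ∧ ∀ i : Fin l.length, ω (s + 1 + (i : ℕ)) ∈ l.get i} =
        (fun ω : ℤ → S0 => ω s) ⁻¹' A ∩ ⋂ i : Fin l.length,
          (fun ω : ℤ → S0 => ω (s + 1 + (i : ℕ))) ⁻¹' (l.get i) := by
      ext ω
      simp
    rw [e]
    exact ((measurable_pi_apply s) hA).inter (MeasurableSet.iInter fun i =>
      (measurable_pi_apply _) (hl _ (List.get_mem _ _)))
  rw [Measure.map_apply (meas_EE M) hD]
  obtain ⟨t, ht⟩ : ∃ t : ℕ, (t : ℤ) = s + M := ⟨(s + M).toNat, by omega⟩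
  obtain ⟨n, hn⟩ : ∃ n : ℕ, n + t = 2 * M := ⟨2 * M - t, by omega⟩
  have e : EE M ⁻¹' {ω | ω s ∈ A ∧ ∀ i : Fin l.length, ω (s + 1 + (i : ℕ)) ∈ l.get i} =
      {ω | (fun k => ω (k + t)) ∈ Cl (A :: l)} := by
    ext ω
    show (ω (s + M).toNat ∈ A ∧ ∀ i : Fin l.length, ω (s + 1 + (i : ℕ) + M).toNat ∈ l.get i) ↔
      (ω (0 + t) ∈ A ∧ (fun k => ω (k + 1 + t)) ∈ Cl l)
    rw [mem_Cl]
    have e1 : (s + M).toNat = 0 + t := by omega
    have e2 : ∀ i : Fin l.length, (s + 1 + ((i : ℕ) : ℤ) + M).toNat = (i : ℕ) + 1 + t := by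
      intro i
      omega
    rw [e1]
    simp only [e2]
  rw [e, ← hn, lam_shift h n t _ (meas_Cl _ hAl)]
  have h1 := (lam_int h n).2 A l hA hl (by omega) (fun _ => 1) measurable_const
  rw [setLIntegral_const, one_mul] at h1
  rw [h1]
  obtain ⟨h2, h3⟩ := Gl_prop h l hl
  have h4 : Integrable (Gl l) mS := by
    refine Integrable.of_bound (C := 1) h2.aestronglyMeasurable (Eventually.of_forall fun x => ?_)
    rw [Real.norm_eq_abs, abs_of_nonneg (h3 x).1]
    exact (h3 x).2
  rw [ofReal_integral_eq_lintegral_ofReal h4.integrableOn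
    (Eventually.of_forall fun x => (h3 x).1)]
  refine lintegral_congr fun x => one_mul _

theorem ext_box {k : ℕ} (P Q : ProbabilityMeasure (Fin k → S0))
    (hPQ : ∀ B : Fin k → Set S0, (∀ i, MeasurableSet (B i)) →
      (P : Measure (Fin k → S0)) (Set.univ.pi B) = (Q : Measure (Fin k → S0)) (Set.univ.pi B)) :
    P = Q := by
  obtain ⟨P, hP⟩ := P
  obtain ⟨Q, hQ⟩ := Q
  apply Subtype.ext
  show P = Q
  haveI : IsProbabilityMeasure P := hP
  haveI : IsProbabilityMeasure Q := hQ
  refine ext_of_generate_finite _ generateFrom_pi.symm isPiSystem_pi ?_ (by simp)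
  rintro _ ⟨B, hB, rfl⟩
  exact hPQ B (fun i => hB i (Set.mem_univ i))

instance i1 : BorelSpace (ℤ → S0) := Pi.borelSpace

instance i2 (k : ℕ) : BorelSpace (Fin k → S0) := Pi.borelSpace

theorem t_CH : S_CH := by
  intro h
  haveI := h.1
  haveI hpr : ∀ n, IsProbabilityMeasure (lam n) := fun n => (lam_int h n).1
  obtain ⟨ν, hν⟩ : ∃ ν : ℕ → ProbabilityMeasure (ℤ → S0),
      ∀ M, (ν M : Measure (ℤ → S0)) = (lam (2 * M)).map (EE M) :=
    ⟨fun M => ⟨(lam (2 * M)).map (EE M),
      Measure.isProbabilityMeasure_map (meas_EE M).aemeasurable⟩, fun M => rfl⟩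
  obtain ⟨U, hU⟩ : ∃ U : Ultrafilter ℕ, (U : Filter ℕ) ≤ atTop :=
    ⟨Ultrafilter.of atTop, Ultrafilter.of_le _⟩
  obtain ⟨μ, hμ⟩ : ∃ μ, Tendsto ν U (𝓝 μ) :=
    ⟨(Ultrafilter.map ν U).lim, (Ultrafilter.map ν U).le_nhds_lim⟩
  refine ⟨μ, inferInstance, ?_⟩
  intro s A l hA hl
  -- the projection
  obtain ⟨π, hπ⟩ : ∃ π : (ℤ → S0) → (Fin (l.length + 1) → S0),
      π = fun ω i => ω (s + (i : ℕ)) := ⟨_, rfl⟩
  have hπc : Continuous π := by
    rw [hπ]
    exact continuous_pi fun i => continuous_apply _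
  have hπi : ∀ ω i, π ω i = ω (s + (i : ℕ)) := fun ω i => by rw [hπ]
  -- the probabilities of the boxes
  have hbox : ∀ M : ℕ, -(M : ℤ) ≤ s → s + l.length ≤ M →
      ∀ B : Fin (l.length + 1) → Set S0, (∀ i, MeasurableSet (B i)) →
      ((ν M).map hπc.measurable.aemeasurable : Measure (Fin (l.length + 1) → S0))
        (Set.univ.pi B) =
        ENNReal.ofReal (∫ x in B 0, Gl (List.ofFn fun i : Fin l.length => B i.succ) x ∂mS) := by
    intro M h1 h2 B hB
    rw [ProbabilityMeasure.map_apply' _ _ (MeasurableSet.univ_pi hB), hν]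
    rw [← lam_win h s (B 0) (List.ofFn fun i : Fin l.length => B i.succ) (hB 0) ?_ M h1
      (by simpa using h2)]
    · congr 1
      ext ω
      simp only [Set.mem_preimage, Set.mem_pi, Set.mem_univ, true_imp_iff, Set.mem_ofPred_eq, hπi]
      constructor
      · intro h3
        refine ⟨by simpa using h3 0, fun i => ?_⟩
        have h4 := h3 (Fin.succ ⟨i.1, by simpa using i.2⟩)
        rw [List.get_ofFn]
        have e : s + 1 + ((i : ℕ) : ℤ) = s + (((Fin.succ ⟨i.1, by simpa using i.2⟩ :
          Fin (l.length + 1)) : ℕ) : ℤ) := by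
          rw [Fin.val_succ]
          push_cast
          ring
        rw [e]
        exact h4
      · rintro ⟨h3, h4⟩ i
        refine Fin.cases ?_ (fun j => ?_) i
        · simpa using h3
        · have h5 := h4 ⟨j.1, by simp⟩
          rw [List.get_ofFn] at h5
          have e : s + (((Fin.succ j : Fin (l.length + 1)) : ℕ) : ℤ) = s + 1 + ((j : ℕ) : ℤ) := by
            rw [Fin.val_succ]
            push_cast
            ring
          rw [e]
          exact h5
    · intro C hC
      rw [List.mem_ofFn] at hC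
      obtain ⟨i, rfl⟩ := hC
      exact hB _
  obtain ⟨M0, hM1, hM2⟩ : ∃ M0 : ℕ, -(M0 : ℤ) ≤ s ∧ s + l.length ≤ M0 :=
    ⟨s.natAbs + l.length, by omega, by omega⟩
  have hconst : ∀ M, M0 ≤ M → (ν M).map hπc.measurable.aemeasurable =
      (ν M0).map hπc.measurable.aemeasurable := by
    intro M hM
    apply ext_box
    intro B hB
    exact (hbox M (by omega) (by omega) B hB).trans (hbox M0 hM1 hM2 B hB).symm
  have hlim : μ.map hπc.measurable.aemeasurable = (ν M0).map hπc.measurable.aemeasurable := by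
    have h1 : Tendsto (fun M => (ν M).map hπc.measurable.aemeasurable) U
        (𝓝 (μ.map hπc.measurable.aemeasurable)) :=
      ProbabilityMeasure.tendsto_map_of_tendsto_of_continuous ν μ hμ hπc
    have h2 : Tendsto (fun M => (ν M).map hπc.measurable.aemeasurable) U
        (𝓝 ((ν M0).map hπc.measurable.aemeasurable)) := by
      refine tendsto_const_nhds.congr' ?_
      filter_upwards [hU (eventually_ge_atTop M0)] with M hM
      exact (hconst M hM).symm
    exact tendsto_nhds_unique h1 h2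
  -- conclusion
  have hAB : MeasurableSet {v : Fin (l.length + 1) → S0 | v 0 ∈ A ∧
      ∀ i : Fin l.length, v i.succ ∈ l.get i} := by
    have e : {v : Fin (l.length + 1) → S0 | v 0 ∈ A ∧ ∀ i : Fin l.length, v i.succ ∈ l.get i} =
        (fun v : Fin (l.length + 1) → S0 => v 0) ⁻¹' A ∩ ⋂ i : Fin l.length,
          (fun v : Fin (l.length + 1) → S0 => v i.succ) ⁻¹' (l.get i) := by
      ext v
      simp
    rw [e]
    have hm : ∀ j : Fin (l.length + 1), Measurable (fun v : Fin (l.length + 1) → S0 => v j) :=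
      fun j => measurable_pi_apply j
    exact ((hm 0) hA).inter (MeasurableSet.iInter fun i =>
      (hm i.succ) (hl _ (List.get_mem _ _)))
  have hpre : π ⁻¹' {v : Fin (l.length + 1) → S0 | v 0 ∈ A ∧
      ∀ i : Fin l.length, v i.succ ∈ l.get i} =
      {ω | ω s ∈ A ∧ ∀ i : Fin l.length, ω (s + 1 + (i : ℕ)) ∈ l.get i} := by
    ext ω
    simp only [Set.mem_preimage, Set.mem_ofPred_eq, hπi]
    have e0 : s + (((0 : Fin (l.length + 1)) : ℕ) : ℤ) = s := by simp
    have e1 : ∀ i : Fin l.length, s + (((Fin.succ i : Fin (l.length + 1)) : ℕ) : ℤ) =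
        s + 1 + ((i : ℕ) : ℤ) := by
      intro i
      rw [Fin.val_succ]
      push_cast
      ring
    rw [e0]
    simp only [e1]
  have h1 : (μ : Measure (ℤ → S0)) {ω | ω s ∈ A ∧ ∀ i : Fin l.length,
      ω (s + 1 + (i : ℕ)) ∈ l.get i} = ENNReal.ofReal (∫ x in A, Gl l x ∂mS) := by
    rw [← hpre, ← ProbabilityMeasure.map_apply' μ hπc.measurable.aemeasurable hAB, hlim,
      ProbabilityMeasure.map_apply' _ _ hAB, hpre, hν]
    exact lam_win h s A l hA hl M0 hM1 hM2
  rw [Measure.real, h1, ENNReal.toReal_ofReal]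
  exact integral_nonneg fun x => ((Gl_prop h l hl).2 x).1

end Pool.Agent.Y863.MK.CH
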